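import Mathlib

set_option autoImplicit false

namespace Pool.Agent.H.MP_0b0399_co

/-- `F ⊆ [k]^d` has no strong copy of the diamond `D₂` -/
def DFree {k d : ℕ} (F : Finset (Fin d → Fin k)) : Prop :=
  ¬ ∃ a ∈ F, ∃ b ∈ F, ∃ c ∈ F, ∃ e ∈ F, a < b ∧ b < e ∧ a < c ∧ c < e ∧ ¬ b ≤ c ∧ ¬ c ≤ b

open Classical in
/-- `La*([k]^d, D₂)` -/
noncomputable def LaD (k d : ℕ) : ℕ :=
  (Finset.univ.filter fun F : Finset (Fin d → Fin k) => DFree F).sup Finset.card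

end Pool.Agent.H.MP_0b0399_co
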