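import Mathlib
import Pool.Agent.H.MP_8ac0e4_co.Build
import Pool.Agent.H.MP_0b0399_co.Defs

set_option autoImplicit false

namespace Pool.Agent.H.MP_0b0399_co

open Finset Pool.Agent.H.MP_8ac0e4_co

lemma rk_lt {k d : ℕ} {x y : Fin d → Fin k} (h : x < y) : rk x < rk y := by
  obtain ⟨a, i, b⟩ := Pi.lt_def.1 h
  exact sum_lt_sum (fun j _ => a j) ⟨i, mem_univ _, b⟩

lemma add_level {k d T : ℕ} {G : Finset (Fin d → Fin k)} (hG : VFree G)
    (hT : ∀ x ∈ G, rk x < T) : #G + N k d T ≤ LaD k d := by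
  classical
  rw [N, ← card_union_of_disjoint (disjoint_left.2 fun x a b =>
    (hT x a).ne (mem_filter.1 b).2)]
  refine le_sup (f := card) (mem_filter.2 ⟨mem_univ _, ?_⟩)
  rintro ⟨a, ha, b, hb, c, hc, e, he, ab, be, ac, ce, n1, n2⟩
  have up : ∀ x ∈ G ∪ univ.filter (rk · = T), x < e → x ∈ G := fun x hx h => by
    have p := rk_lt h
    refine (mem_union.1 hx).resolve_right fun q => ?_
    have q := (mem_filter.1 q).2
    rcases mem_union.1 he with r | r
    · have := hT e r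
      omega
    · have := (mem_filter.1 r).2
      omega
  exact hG ⟨a, up a ha (ab.trans be), b, up b hb be, c, up c hc ce, ab, ac, n1, n2⟩

lemma F_rk {k L e t ρ : ℕ} (hρ : ρ < e + 1) {x : Fin (e + 2) → Fin k}
    (hx : x ∈ F k (e + 2) (L + 1) ((e + 1) * t + ρ)) : rk x < (L + 1) * (t + 3) := by
  have a := sum_u x
  have b : ∑ i, u x i ≤ ∑ i, ((L + 1) * (u x i / (L + 1)) + (L + 1)) :=
    sum_le_sum fun i _ => by
      have := Nat.div_add_mod (u x i) (L + 1)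
      have : u x i % (L + 1) < L + 1 := Nat.mod_lt _ (Nat.succ_pos L)
      omega
  rw [sum_add_distrib, ← mul_sum, (mem_filter.1 hx).2.1, a] at b
  simp only [sum_const, card_univ, Fintype.card_fin, smul_eq_mul] at b
  refine Nat.lt_of_mul_lt_mul_left (a := e + 1) ?_
  nlinarith [Nat.mul_le_mul_left (L + 1) (Nat.le_of_lt_succ hρ)]

lemma N_low {k K L e m σ j : ℕ} (hk : (L + 1) * K ≤ k) (hm : m ≤ N K (e + 2) σ) (hj : e + 2 ≤ j) :
    ∃ c, (L + 1) ^ (e + 1) * (m - j * K ^ e) ≤ N k (e + 2) ((L + 1) * (σ + j) + c) := by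
  obtain ⟨c, -, h⟩ := exists_max_image (range (L + 1))
    (fun c => #{x : Fin (e + 2) → Fin (L + 1) | rk x % (L + 1) = c}) (by simp)
  have a := card_le_mul_card_image_of_maps_to (s := univ)
    (f := fun x : Fin (e + 2) → Fin (L + 1) => rk x % (L + 1)) (t := range (L + 1))
    (fun x _ => mem_range.2 (Nat.mod_lt _ (Nat.succ_pos L))) _ h
  rw [card_range, card_univ, Fintype.card_fun, Fintype.card_fin, Fintype.card_fin, pow_succ] at a
  refine ⟨c, (Nat.mul_le_mul_right _ (Nat.le_of_mul_le_mul_right a (Nat.succ_pos L))).trans ?_⟩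
  have cb : ∀ x : Fin (e + 2) → Fin (L + 1), rk x / (L + 1) ≤ j := fun x => by
    refine (Nat.div_le_of_le_mul ?_).trans hj
    refine (sum_le_card_nsmul _ _ (L + 1) fun l _ => (x l).2.le).trans ?_
    simp [mul_comm]
  rw [← smul_eq_mul]
  refine (card_nsmul_le_sum _ (fun x => N K (e + 2) (σ + (j - rk x / (L + 1)))) _
    fun x _ => ?_).trans ?_
  · have a := N_ups K e σ (j - rk x / (L + 1))
    have b := Nat.mul_le_mul_right (K ^ e) (Nat.sub_le j (rk x / (L + 1)))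
    omega
  simp only [N]
  rw [← card_sigma]
  refine card_le_card_of_injOn (fun q i => ⟨(L + 1) * q.2 i + q.1 i, by
    have := Nat.mul_le_mul_left (L + 1) (Nat.succ_le_of_lt (q.2 i).2)
    have := (q.1 i).2
    rw [Nat.mul_succ] at *
    omega⟩) ?_ ?_
  · rintro ⟨x, X⟩ hq
    simp only [coe_sigma, Set.mem_sigma_iff, coe_filter, mem_univ, true_and,
      Set.mem_ofPred_eq] at hq ⊢
    obtain ⟨b, d⟩ := hq
    have f := Nat.div_add_mod (rk x) (L + 1)
    obtain ⟨t, ht⟩ := Nat.exists_eq_add_of_le (cb x)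
    rw [ht, Nat.add_sub_cancel_left] at d
    rw [ht]
    simp only [rk, sum_add_distrib, ← mul_sum] at d f b ⊢
    rw [d, ← b]
    linarith
  · rintro ⟨x, X⟩ - ⟨y, Y⟩ - a
    have b : ∀ i, (L + 1) * (X i : ℕ) + x i = (L + 1) * Y i + y i := fun i =>
      Fin.mk.inj (congrFun a i)
    obtain rfl : x = y := funext fun i => Fin.ext (by
      have := congrArg (· % (L + 1)) (b i)
      simpa [Nat.mod_eq_of_lt (x i).2, Nat.mod_eq_of_lt (y i).2] using this)
    obtain rfl : X = Y := funext fun i => Fin.ext (by simpa using b i)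
    rfl

lemma good' (L e : ℕ) : ∃ ρ < e + 1, (e + 2) * (L + 1) ^ (e + 1) ≤
    (e + 1) * #{x ∈ univ.biUnion (P (L + 1) (e + 2)) | (∑ i, u x i / (L + 1)) % (e + 1) = ρ} +
      (e + 2) * (e + 2) * (L + 1) ^ e := by
  obtain ⟨ρ, h⟩ := good L e
  rcases lt_or_ge ρ (e + 1) with a | a
  · exact ⟨ρ, a, h⟩
  · rw [card_eq_zero.2 (filter_eq_empty_iff.2 fun x _ c =>
      absurd (by rw [← c]; exact Nat.mod_lt _ (Nat.succ_pos e)) (not_lt.2 a))] at h
    exact ⟨0, by omega, by omega⟩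

lemma fin2 (k K L e : ℕ) (h1 : (L + 1) * (K + 1) ≤ k) (h2 : k ≤ (L + 1) * (K + 2)) :
    ∃ m p : ℕ, (K + 1) ^ (e + 1) ≤ (e + 2) * m ∧
      w k (e + 2) ≤ (m + (e + 2) * (K + 2) ^ e) * (L + 1) ^ (e + 1) ∧
      (e + 2) * (L + 1) ^ (e + 1) ≤ (e + 1) * p + (e + 2) * (e + 2) * (L + 1) ^ e ∧
      (p + (L + 1) ^ (e + 1)) * (m - ((e + 2) * (e + 2) + 3) * (K + 1) ^ e) ≤ LaD k (e + 2) := by
  obtain ⟨σ, a, b⟩ := N_max K (e + 2)
  obtain ⟨ρ, r, c⟩ := good' L e
  obtain ⟨t, ht⟩ := N_low (j := (e + 2) * (e + 2) + 3) h1 (le_refl (N (K + 1) (e + 2) σ))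
    (by nlinarith)
  refine ⟨N (K + 1) (e + 2) σ, _, ?_, ?_, c, le_trans ?_ (add_level (vfree k (e + 2) (L + 1)
    ((e + 1) * (σ + (e + 2) * (e + 2)) + ρ) (Nat.succ_pos L)) fun x hx =>
      (F_rk r hx).trans_le (Nat.le_add_right _ t))⟩
  · refine Nat.le_of_mul_le_mul_right ?_ (Nat.succ_pos K)
    rw [← pow_succ]
    nlinarith [Nat.zero_le ((e + 1) * N (K + 1) (e + 2) σ)]
  · obtain ⟨k, rfl⟩ : ∃ k', k = k' + 1 := ⟨k - 1, (Nat.sub_add_cancel
      (le_trans (Nat.mul_pos (Nat.succ_pos L) (Nat.succ_pos K)) h1)).symm⟩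
    exact (w_le k _).trans (N_blow (Nat.succ_pos L) h2
      (fun T => (N_pad _ _ T).trans (Nat.add_le_add_right (a T) _)) _)
  · rw [add_mul]
    exact Nat.add_le_add (le_trans (Nat.mul_le_mul_left _ (Nat.sub_le_sub_left
      (Nat.mul_le_mul_right _ (Nat.le_add_right _ 3)) _)) (F_card h1 le_rfl)) ht

end Pool.Agent.H.MP_0b0399_co
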